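import Pool.Agent.N877.P24.Defs
import Pool.Agent.Y574.Z7.C2

/-!
# P24-C2 (helper789): symbols, and the summand as a product of local weights

Adapted from `Pool/Agent/N295/P15/C2A.lean` (helper295).
-/

set_option autoImplicit false

namespace Pool.Agent.N789.P24

open Finset
open Pool.Agent.Z700 (hh fac)
open Pool.Agent.Y574.Z7 (chp chp_mul chp_one chp_self chp_nd chp_sq chp_pm jac_eq sum_local two_pt
  one_sum alt_sum dvd_fac nd4 fac_D mem_D chp_D jac_prod chp_prod)
open Pool.Agent.N877.P24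

/-! ### the product of the symbols -/

/-- the product of the symbols -/
def Ps (P : Finset ℕ) (m : ℕ) : ℤ := ∏ q ∈ P, chp q m

theorem Ps_one (P : Finset ℕ) : Ps P 1 = 1 := by
  unfold Ps
  exact Finset.prod_eq_one fun q _ => chp_one q

theorem Ps_mul (P : Finset ℕ) (a b : ℕ) : Ps P (a * b) = Ps P a * Ps P b := by
  unfold Ps
  rw [← Finset.prod_mul_distrib]
  exact Finset.prod_congr rfl fun q _ => chp_mul q a b

theorem Ps_pow (P : Finset ℕ) (a k : ℕ) : Ps P (a ^ k) = Ps P a ^ k := by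
  induction k with
  | zero => rw [pow_zero, pow_zero, Ps_one]
  | succ k ih => rw [pow_succ, Ps_mul, ih, pow_succ]

theorem Ps_prod (P : Finset ℕ) (s : Finset ℕ) (f : ℕ → ℕ) :
    Ps P (∏ l ∈ s, f l) = ∏ l ∈ s, Ps P (f l) := by
  classical
  induction s using Finset.induction_on with
  | empty => rw [Finset.prod_empty, Finset.prod_empty, Ps_one]
  | insert l s hl ih => rw [Finset.prod_insert hl, Finset.prod_insert hl, Ps_mul, ih]

/-- `Ps` is completely multiplicative -/
theorem Ps_fac (P : Finset ℕ) (Q : Finset ℕ) (n : ℕ) (hn : n ≠ 0) (h : n.primeFactors ⊆ Q) :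
    Ps P n = ∏ l ∈ Q, Ps P l ^ n.factorization l := by
  have h1 : ∏ l ∈ n.primeFactors, l ^ n.factorization l = n := by
    have h2 := Nat.prod_factorization_pow_eq_self hn
    unfold Finsupp.prod at h2
    rwa [Nat.support_factorization] at h2
  have h2 : Ps P n = ∏ l ∈ n.primeFactors, Ps P l ^ n.factorization l := by
    conv_lhs => rw [← h1]
    rw [Ps_prod]
    exact Finset.prod_congr rfl fun l _ => Ps_pow P l _
  rw [h2]
  refine Finset.prod_subset h fun l _ hl => ?_
  rw [Finsupp.notMem_support_iff.1 (by rwa [Nat.support_factorization]), pow_zero]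

theorem Ps_pm {P : Finset ℕ} (hP : ∀ p ∈ P, p.Prime) {n : ℕ} (hn : n ≠ 0) : Ps P n = 1 ∨ Ps P n = -1 := by
  have h : Ps P n * Ps P n = 1 := by
    unfold Ps
    rw [← Finset.prod_mul_distrib]
    exact Finset.prod_eq_one fun q hq => chp_sq (hP q hq) hn
  exact mul_self_eq_one_iff.1 h

/-! ### the class -/

/-- the hypotheses on `n` -/
structure Ok (n : ℕ) : Prop where
  sq : Squarefree n
  m8 : n % 8 = 3
  m3 : n % 3 = 2

theorem ok_of {n : ℕ} (h : Cls0 n) : Ok n := by
  obtain ⟨h1, h2⟩ := h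
  refine ⟨h1, ?_, ?_⟩ <;> omega

variable {n : ℕ}

theorem Ok.m4 (h : Ok n) : n % 4 = 3 := by
  have := h.m8
  omega

theorem Ok.n0 (h : Ok n) : n ≠ 0 := by
  rintro rfl
  have := h.m4
  omega

theorem Ok.odd (h : Ok n) : Odd n := by
  have := h.m4
  rw [Nat.odd_iff]; omega

theorem pf_prime {q : ℕ} (hq : q ∈ n.primeFactors) : q.Prime := Nat.prime_of_mem_primeFactors hq

theorem pf_dvd {q : ℕ} (hq : q ∈ n.primeFactors) : q ∣ n := Nat.dvd_of_mem_primeFactors hq

theorem Ok.mem (h : Ok n) {q : ℕ} (hq : q.Prime) : q ∈ n.primeFactors ↔ q ∣ n :=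
  ⟨pf_dvd, fun hd => Nat.mem_primeFactors.2 ⟨hq, hd, h.n0⟩⟩

theorem Ok.ne2 (h : Ok n) {q : ℕ} (hq : q ∈ n.primeFactors) : q ≠ 2 := by
  rintro rfl
  have h1 := pf_dvd hq
  have := h.m4
  omega

theorem Ok.ne3 (h : Ok n) {q : ℕ} (hq : q ∈ n.primeFactors) : q ≠ 3 := by
  rintro rfl
  have h1 := pf_dvd hq
  have := h.m3
  omega

theorem Ok.podd (h : Ok n) {q : ℕ} (hq : q ∈ n.primeFactors) : Odd q :=
  (pf_prime hq).odd_of_ne_two (h.ne2 hq)

theorem Ok.nd2 (h : Ok n) : ¬ 2 ∣ n := by have := h.m4; omega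

theorem Ok.nd3 (h : Ok n) : ¬ 3 ∣ n := by have := h.m3; omega

theorem Ok.fac1 (h : Ok n) {q : ℕ} (hq : q ∈ n.primeFactors) : n.factorization q = 1 := by
  apply le_antisymm
  · exact h.sq.natFactorization_le_one q
  · exact (dvd_fac (pf_prime hq) h.n0).1 (pf_dvd hq)

theorem Ok.prod (h : Ok n) : ∏ q ∈ n.primeFactors, q = n := Nat.prod_primeFactors_of_squarefree h.sq

/-- the value of `Ps` away from `n` -/
theorem Ok.Ps_nd (h : Ok n) {m : ℕ} (hm : ∀ q ∈ n.primeFactors, ¬ q ∣ m) :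
    Ps n.primeFactors m = jacobiSym m n := by
  conv_rhs => rw [← h.prod]
  rw [jac_prod _ _ fun q hq => (pf_prime hq).ne_zero]
  unfold Ps
  exact Finset.prod_congr rfl fun q hq => chp_nd (hm q hq)

/-- reciprocity -/
theorem Ok.recip (h : Ok n) {l : ℕ} (hl : Odd l) : jacobiSym (-(n : ℤ)) l = jacobiSym l n := by
  rw [jacobiSym.neg _ hl]
  have h2 : l % 4 = 1 ∨ l % 4 = 3 := by
    rw [Nat.odd_iff] at hl; omega
  rcases h2 with h2 | h2
  · rw [ZMod.χ₄_nat_one_mod_four h2, one_mul, jacobiSym.quadratic_reciprocity_one_mod_four' h.odd h2]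
  · rw [ZMod.χ₄_nat_three_mod_four h2, jacobiSym.quadratic_reciprocity_three_mod_four h.m4 h2]
    ring

theorem Ok.Ps_l (h : Ok n) {l : ℕ} (hl : l.Prime) (h2 : l ≠ 2) (hn : l ∉ n.primeFactors) :
    Ps n.primeFactors l = jacobiSym (-(n : ℤ)) l := by
  rw [h.recip (hl.odd_of_ne_two h2), h.Ps_nd]
  intro q hq hd
  rw [(Nat.prime_dvd_prime_iff_eq (pf_prime hq) hl).1 hd] at hq
  exact hn hq

theorem Ok.Ps_two (h : Ok n) : Ps n.primeFactors 2 = -1 := by
  rw [h.Ps_nd]
  · have h8 := h.m8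
    rw [Nat.cast_ofNat, jacobiSym.at_two h.odd, ZMod.χ₈_nat_eq_if_mod_eight, if_neg (by omega),
      if_neg (by omega)]
  · intro q hq hd
    exact h.ne2 hq ((Nat.prime_dvd_prime_iff_eq (pf_prime hq) Nat.prime_two).1 hd)

theorem Ok.Ps_three (h : Ok n) : Ps n.primeFactors 3 = 1 := by
  rw [h.Ps_l Nat.prime_three (by norm_num) (fun h3 => h.ne3 h3 rfl), jacobiSym.mod_left]
  have := h.m3
  have h1 : (-(n : ℤ)) % ((3 : ℕ) : ℤ) = 1 := by omega
  rw [h1]; norm_num

/-- reciprocity for the primes of `n` -/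
theorem Ok.Ps_p (h : Ok n) {l : ℕ} (hl : l ∈ n.primeFactors) : Ps n.primeFactors l = chp l n := by
  classical
  obtain ⟨m, hm⟩ : ∃ m, m = ∏ q ∈ n.primeFactors.erase l, q := ⟨_, rfl⟩
  have hlp := pf_prime hl
  have e1 : l * m = n := by
    rw [hm]
    exact (Finset.mul_prod_erase n.primeFactors (fun q => q) hl).trans h.prod
  have hnd : ¬ l ∣ m := by
    intro h1
    have h2 : l * l ∣ n := by rw [← e1]; exact mul_dvd_mul_left l h1
    exact hlp.one_lt.ne' (Nat.isUnit_iff.1 (h.sq l h2))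
  have e2 : chp l n = jacobiSym (m : ℤ) l := by
    rw [← e1, chp_mul, chp_self hlp, one_mul, chp_nd hnd]
  have e3 : Ps n.primeFactors l = jacobiSym (l : ℤ) m := by
    unfold Ps
    rw [← Finset.mul_prod_erase _ _ hl, chp_self hlp, one_mul, hm,
      jac_prod _ _ fun q hq => (pf_prime (Finset.mem_of_mem_erase hq)).ne_zero]
    refine Finset.prod_congr rfl fun q hq => chp_nd fun hd => ?_
    exact (Finset.ne_of_mem_erase hq)
      ((Nat.prime_dvd_prime_iff_eq (pf_prime (Finset.mem_of_mem_erase hq)) hlp).1 hd)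
  rw [e2, e3]
  have h4 := h.m4
  have hlo := h.podd hl
  have hmo : Odd m := by
    rcases Nat.even_or_odd m with h5 | h5
    · exfalso
      have : Even n := by rw [← e1]; exact h5.mul_left l
      exact (Nat.not_even_iff_odd.2 h.odd) this
    · exact h5
  have h6 : (l % 4 = 1 ∧ m % 4 = 3) ∨ (l % 4 = 3 ∧ m % 4 = 1) := by
    have h7 : l % 4 = 1 ∨ l % 4 = 3 := by rw [Nat.odd_iff] at hlo; omega
    have h8 : m % 4 = 1 ∨ m % 4 = 3 := by rw [Nat.odd_iff] at hmo; omega
    have h9 : (l % 4) * (m % 4) % 4 = 3 := by rw [← Nat.mul_mod, e1, h4]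
    rcases h7 with h7 | h7 <;> rcases h8 with h8 | h8 <;> rw [h7, h8] at h9 <;> omega
  rcases h6 with h6 | h6
  · exact jacobiSym.quadratic_reciprocity_one_mod_four h6.1 hmo
  · exact (jacobiSym.quadratic_reciprocity_one_mod_four h6.2 hlo).symm

/-! ### the local weights -/

/-- the local weight at a prime of `n` -/
def wq (S T q i j : ℕ) : ℤ :=
  if q ∣ T then (if i = S.factorization q ∧ j = 0 then chp q S
      else if i = 0 ∧ j = T.factorization q then ZMod.χ₄ q * chp q T else 0)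
  else ZMod.χ₄ q * chp q T

theorem psp_eq {p S T a a' : ℕ} (hp : p.Prime) (hpo : Odd p) (hS : S ≠ 0) (hT : T ≠ 0)
    (hd : p ∣ S ↔ p ∣ T) (ha : a ∣ S) (ha' : a' ∣ T) :
    psp p a a' (S / a) (T / a') =
      chp p a * chp p a' * wq S T p (a.factorization p) (a'.factorization p) := by
  obtain ⟨Y, rfl⟩ := ha
  obtain ⟨X, rfl⟩ := ha'
  have a0 : a ≠ 0 := left_ne_zero_of_mul hS
  have Y0 : Y ≠ 0 := right_ne_zero_of_mul hS
  have b0 : a' ≠ 0 := left_ne_zero_of_mul hT
  have X0 : X ≠ 0 := right_ne_zero_of_mul hT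
  rw [Nat.mul_div_cancel_left _ (Nat.pos_of_ne_zero a0), Nat.mul_div_cancel_left _ (Nat.pos_of_ne_zero b0)]
  rw [dvd_fac hp hS, dvd_fac hp hT, Nat.factorization_mul a0 Y0, Nat.factorization_mul b0 X0,
    Finsupp.add_apply, Finsupp.add_apply] at hd
  unfold psp wq
  rw [jacobiSym.neg _ hpo, jac_eq hp, jac_eq hp]
  simp only [dvd_fac hp a0, dvd_fac hp X0, dvd_fac hp (mul_ne_zero b0 Y0),
    dvd_fac hp (mul_ne_zero a0 X0), dvd_fac hp hT, Nat.factorization_mul a0 Y0, Nat.factorization_mul b0 X0,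
    Nat.factorization_mul b0 Y0, Nat.factorization_mul a0 X0, Finsupp.add_apply, chp_mul]
  have s1 := chp_sq hp a0
  have s2 := chp_sq hp b0
  generalize a.factorization p = i at *
  generalize Y.factorization p = y at *
  generalize a'.factorization p = j at *
  generalize X.factorization p = x at *
  generalize chp p a = α at *
  generalize chp p a' = α' at *
  generalize chp p Y = υ at *
  generalize chp p X = ξ at *
  generalize ZMod.χ₄ p = κ at *
  split_ifs
  all_goals first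
    | (exfalso; omega)
    | (linear_combination (-(α' * υ)) * s1)
    | (linear_combination (-(κ * α * ξ)) * s2)
    | ring1

/-- all the primes -/
def QQ (n S T : ℕ) : Finset ℕ := insert 2 (insert 3 (n.primeFactors ∪ (S * T).primeFactors))

/-- the sign at `2` -/
def s2 (e i : ℕ) : ℤ :=
  if 1 ≤ i then (if i = 1 then -1 else 1) * (if i = e then -1 else 1) else 0

/-- the local weights -/
def Wl (n S T l i j : ℕ) : ℤ :=
  Ps n.primeFactors l ^ (i + j) * (if l ∈ n.primeFactors then wq S T l i j else 1) *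
    (if l = 2 then s2 (S.factorization 2) i else 1) * (if l = 3 then (if 1 ≤ j then 1 else 0) else 1)

theorem mem_QQ2 {S T : ℕ} : 2 ∈ QQ n S T := Finset.mem_insert_self _ _

theorem mem_QQ3 {S T : ℕ} : 3 ∈ QQ n S T := Finset.mem_insert_of_mem (Finset.mem_insert_self _ _)

theorem sub_QQ {S T : ℕ} : n.primeFactors ⊆ QQ n S T := fun _ hq =>
  Finset.mem_insert_of_mem (Finset.mem_insert_of_mem (Finset.mem_union_left _ hq))

theorem pf_QQ {S T : ℕ} : (S * T).primeFactors ⊆ QQ n S T := fun _ hq =>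
  Finset.mem_insert_of_mem (Finset.mem_insert_of_mem (Finset.mem_union_right _ hq))

theorem QQ_prime {S T : ℕ} : ∀ l ∈ QQ n S T, l.Prime := by
  intro l hl
  unfold QQ at hl
  rcases Finset.mem_insert.1 hl with rfl | hl
  · exact Nat.prime_two
  rcases Finset.mem_insert.1 hl with rfl | hl
  · exact Nat.prime_three
  rcases Finset.mem_union.1 hl with hl | hl
  · exact Nat.prime_of_mem_primeFactors hl
  · exact Nat.prime_of_mem_primeFactors hl

theorem dvd_iff' {S T : ℕ} (hST : S + T = n) {q : ℕ} (hq : q ∈ n.primeFactors) :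
    q ∣ S ↔ q ∣ T := by
  have h : q ∣ n := pf_dvd hq
  rw [← hST] at h
  exact ⟨fun h1 => (Nat.dvd_add_right h1).1 h, fun h1 => (Nat.dvd_add_left h1).1 h⟩

/-- the sign of a factorization -/
theorem sg_eq {S a : ℕ} (hS : S ≠ 0) (ha : a ∣ S) (h2 : 2 ∣ a) :
    sg a (S / a) = s2 (S.factorization 2) (a.factorization 2) := by
  obtain ⟨Y, rfl⟩ := ha
  have a0 : a ≠ 0 := left_ne_zero_of_mul hS
  have Y0 : Y ≠ 0 := right_ne_zero_of_mul hS
  rw [Nat.mul_div_cancel_left _ (Nat.pos_of_ne_zero a0)]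
  have h1 : 1 ≤ a.factorization 2 := (dvd_fac Nat.prime_two a0).1 h2
  have h4 : 2 ∣ a / 2 ↔ a.factorization 2 ≠ 1 := by
    have h5 : 2 ∣ a / 2 ↔ 2 ^ 2 ∣ a := by
      constructor <;> intro h <;> omega
    rw [h5, Nat.prime_two.pow_dvd_iff_le_factorization a0]
    omega
  have h6 : 2 ∣ Y ↔ a.factorization 2 ≠ (a * Y).factorization 2 := by
    rw [dvd_fac Nat.prime_two Y0, Nat.factorization_mul a0 Y0, Finsupp.add_apply]
    omega
  unfold sg s2
  rw [if_pos h1]
  by_cases h7 : a.factorization 2 = 1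
  · rw [if_pos h7]
    by_cases h8 : a.factorization 2 = (a * Y).factorization 2
    · rw [if_pos h8, if_pos (by
        have h9 : ¬ 2 ∣ a / 2 := fun h => h4.1 h h7
        have h10 : ¬ 2 ∣ Y := fun h => h6.1 h h8
        omega)]
      norm_num
    · rw [if_neg h8, if_neg (by
        have h9 : ¬ 2 ∣ a / 2 := fun h => h4.1 h h7
        have h10 : 2 ∣ Y := h6.2 h8
        omega)]
      norm_num
  · rw [if_neg h7]
    by_cases h8 : a.factorization 2 = (a * Y).factorization 2
    · rw [if_pos h8, if_neg (by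
        have h9 : 2 ∣ a / 2 := h4.2 h7
        have h10 : ¬ 2 ∣ Y := fun h => h6.1 h h8
        omega)]
      norm_num
    · rw [if_neg h8, if_pos (by
        have h9 : 2 ∣ a / 2 := h4.2 h7
        have h10 : 2 ∣ Y := h6.2 h8
        omega)]
      norm_num

theorem term_eq (h : Ok n) {S T : ℕ} (hS : S ≠ 0) (hT : T ≠ 0)
    (hST : S + T = n) {a a' : ℕ} (ha : a ∣ S) (ha' : a' ∣ T) :
    (if 2 ∣ a then (if 3 ∣ a' then
      sg a (S / a) * ∏ p ∈ n.primeFactors, psp p a a' (S / a) (T / a') else 0) else 0) =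
      ∏ l ∈ QQ n S T, Wl n S T l (a.factorization l) (a'.factorization l) := by
  classical
  have a0 : a ≠ 0 := by rintro rfl; exact hS (zero_dvd_iff.1 ha)
  have b0 : a' ≠ 0 := by rintro rfl; exact hT (zero_dvd_iff.1 ha')
  have hsa : a.primeFactors ⊆ QQ n S T :=
    (Nat.primeFactors_mono (ha.mul_right T) (mul_ne_zero hS hT)).trans pf_QQ
  have hsb : a'.primeFactors ⊆ QQ n S T :=
    (Nat.primeFactors_mono (ha'.mul_left S) (mul_ne_zero hS hT)).trans pf_QQ
  unfold Wl
  rw [Finset.prod_mul_distrib, Finset.prod_mul_distrib, Finset.prod_mul_distrib]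
  have e1 : ∏ l ∈ QQ n S T, Ps n.primeFactors l ^ (a.factorization l + a'.factorization l) =
      Ps n.primeFactors a * Ps n.primeFactors a' := by
    rw [Ps_fac n.primeFactors (QQ n S T) a a0 hsa, Ps_fac n.primeFactors (QQ n S T) a' b0 hsb,
      ← Finset.prod_mul_distrib]
    exact Finset.prod_congr rfl fun l _ => pow_add _ _ _
  have e2 : ∏ l ∈ QQ n S T, (if l ∈ n.primeFactors then
      wq S T l (a.factorization l) (a'.factorization l) else 1) =
      ∏ l ∈ n.primeFactors, wq S T l (a.factorization l) (a'.factorization l) := by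
    rw [Finset.prod_ite_mem, Finset.inter_eq_right.2 sub_QQ]
  have e3 : ∏ l ∈ QQ n S T, (if l = 2 then s2 (S.factorization 2) (a.factorization l) else 1) =
      s2 (S.factorization 2) (a.factorization 2) := by
    rw [Finset.prod_ite_eq' (QQ n S T) 2 (fun l => s2 (S.factorization 2) (a.factorization l)),
      if_pos mem_QQ2]
  have e4 : ∏ l ∈ QQ n S T, (if l = 3 then (if 1 ≤ a'.factorization l then (1 : ℤ) else 0) else 1) =
      if 3 ∣ a' then 1 else 0 := by
    rw [Finset.prod_ite_eq' (QQ n S T) 3 (fun l => if 1 ≤ a'.factorization l then (1 : ℤ) else 0),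
      if_pos mem_QQ3]
    simp only [dvd_fac Nat.prime_three b0]
  rw [e1, e2, e3, e4]
  have e5 : ∏ p ∈ n.primeFactors, psp p a a' (S / a) (T / a') =
      Ps n.primeFactors a * Ps n.primeFactors a' *
        ∏ l ∈ n.primeFactors, wq S T l (a.factorization l) (a'.factorization l) := by
    unfold Ps
    rw [← Finset.prod_mul_distrib, ← Finset.prod_mul_distrib]
    exact Finset.prod_congr rfl fun p hp => psp_eq (pf_prime hp) (h.podd hp) hS hT
      (dvd_iff' hST hp) ha ha'
  rw [e5]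
  by_cases h2 : 2 ∣ a
  · rw [if_pos h2, sg_eq hS ha h2]
    split_ifs
    · ring
    · ring
  · rw [if_neg h2]
    have h3 : s2 (S.factorization 2) (a.factorization 2) = 0 := by
      unfold s2
      rw [if_neg]
      rw [← dvd_fac Nat.prime_two a0]
      exact h2
    rw [h3]
    ring

theorem WW_eq (h : Ok n) {S T : ℕ} (hS : S ≠ 0) (hT : T ≠ 0)
    (hST : S + T = n) (hS3 : ¬ 3 ∣ S) :
    WW n S T = ∏ l ∈ QQ n S T, ∑ i ∈ range (S.factorization l + 1),
      ∑ j ∈ range (T.factorization l + 1), Wl n S T l i j := by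
  rw [← sum_local (Wl n S T) (QQ n S T) QQ_prime S T hS hT
    (fun l hl hd => pf_QQ (Nat.mem_primeFactors.2 ⟨hl, hd.mul_right T, mul_ne_zero hS hT⟩))
    (fun l hl hd => pf_QQ (Nat.mem_primeFactors.2 ⟨hl, hd.mul_left S, mul_ne_zero hS hT⟩))]
  unfold WW
  have h0 : S.divisors.filter (fun a => 2 ∣ a ∧ ¬ 3 ∣ a) = S.divisors.filter (fun a => 2 ∣ a) := by
    refine Finset.filter_congr fun a ha => ?_
    have ha1 := Nat.dvd_of_mem_divisors ha
    exact and_iff_left fun h3 => hS3 (h3.trans ha1)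
  rw [h0, Finset.sum_filter]
  refine Finset.sum_congr rfl fun a ha => ?_
  rw [Finset.sum_filter]
  have ha1 := Nat.dvd_of_mem_divisors ha
  have h1 : ∀ a' ∈ T.divisors, ∏ l ∈ QQ n S T, Wl n S T l (a.factorization l) (a'.factorization l) =
      (if 2 ∣ a then (if 3 ∣ a' then
      sg a (S / a) * ∏ p ∈ n.primeFactors, psp p a a' (S / a) (T / a') else 0) else 0) :=
    fun a' ha' => (term_eq h hS hT hST ha1 (Nat.dvd_of_mem_divisors ha')).symm
  rw [Finset.sum_congr rfl h1]
  by_cases h2 : 2 ∣ a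
  · simp only [if_pos h2]
  · simp only [if_neg h2, Finset.sum_const_zero]

end Pool.Agent.N789.P24
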